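import Pool.Agent.H982R3.Walk3
import Pool.Agent.H500R3.Saw.WalkN

/-!
Self-avoiding walks on the honeycomb lattice: the mean-square displacement is at least
`c n / (log n)^2`, and the end-to-end distance and the maximal distance from the origin are
comparable up to `(log n)^2`, in mean square and in the tails.
-/

set_option linter.unusedSectionVars false

namespace Pool.Agent.Results.MP_b440f6_pr.DisplacementLower

open H982 H982P Filter Topology

/-- The three regular planar lattices. -/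
inductive Lattice
  | square
  | triangular
  | hexagonal

/-- The second basis vector of the lattice (the first one is `1`): `i` for the square lattice,
`e^{iπ/3}` for the triangular and the hexagonal lattice. -/
noncomputable def basis : Lattice → ℂ
  | .square => Complex.I
  | .triangular => ⟨1 / 2, √3 / 2⟩
  | .hexagonal => ⟨1 / 2, √3 / 2⟩

/-- The sites, as points of the plane. The hexagonal lattice is the triangular lattice
`{a + b e^{iπ/3}}` without the centres `a - b ≡ 2 (mod 3)` of the hexagons. -/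
def sites (L : Lattice) : Set ℂ :=
  {z | ∃ a b : ℤ, z = a + b * basis L ∧ (L = .hexagonal → (a - b) % 3 ≠ 2)}

/-- `ω` is an `n`-step self-avoiding walk from the origin on the lattice `L`: its points are
pairwise distinct sites and consecutive points have distance `1`. -/
def IsSAW (L : Lattice) (n : ℕ) (ω : Fin (n + 1) → ℂ) : Prop :=
  ω 0 = 0 ∧ (∀ i, ω i ∈ sites L) ∧ (∀ i : Fin n, ‖ω i.succ - ω i.castSucc‖ = 1) ∧
    Function.Injective ω

/-- Expectation under the uniform measure on the `n`-step self-avoiding walks. -/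
noncomputable def mean (L : Lattice) (n : ℕ) (F : (Fin (n + 1) → ℂ) → ℝ) : ℝ :=
  (∑ᶠ ω ∈ {ω | IsSAW L n ω}, F ω) / ({ω | IsSAW L n ω}.ncard : ℝ)

/-- Probability under the uniform measure on the `n`-step self-avoiding walks. -/
noncomputable def prob (L : Lattice) (n : ℕ) (A : (Fin (n + 1) → ℂ) → Prop) : ℝ :=
  ({ω | IsSAW L n ω ∧ A ω}.ncard : ℝ) / ({ω | IsSAW L n ω}.ncard : ℝ)

/-- Squared end-to-end distance. -/
noncomputable def ReSq (n : ℕ) (ω : Fin (n + 1) → ℂ) : ℝ := ‖ω (Fin.last n)‖ ^ 2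

/-- Squared radius of gyration. -/
noncomputable def RgSq (n : ℕ) (ω : Fin (n + 1) → ℂ) : ℝ :=
  1 / (2 * ((n : ℝ) + 1) ^ 2) * ∑ i, ∑ j, ‖ω i - ω j‖ ^ 2

/-- Squared monomer-endpoint distance. -/
noncomputable def RmSq (n : ℕ) (ω : Fin (n + 1) → ℂ) : ℝ :=
  1 / (2 * ((n : ℝ) + 1)) * ∑ i, (‖ω i‖ ^ 2 + ‖ω i - ω (Fin.last n)‖ ^ 2)

/-- Maximal squared distance from the origin. -/
noncomputable def MaxSq (n : ℕ) (ω : Fin (n + 1) → ℂ) : ℝ := ⨆ i, ‖ω i‖ ^ 2

/-! ### coordinates -/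

/-- quadratic form -/
def Q : Lattice → ℤ × ℤ → ℤ
  | .square => Qs
  | .triangular => Qt
  | .hexagonal => Qt

/-- adjacency in coordinates -/
def Ad : Lattice → ℤ × ℤ → ℤ × ℤ → Prop
  | .square => As
  | .triangular => At
  | .hexagonal => Ah

/-- position -/
noncomputable def ps (L : Lattice) (p : ℤ × ℤ) : ℂ := p.1 + p.2 * basis L

lemma ps_sub (L : Lattice) (p q : ℤ × ℤ) : ps L p - ps L q = ps L (p - q) := by
  unfold ps
  simp only [Prod.fst_sub, Prod.snd_sub]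
  push_cast
  ring

lemma norm_ps (L : Lattice) (p : ℤ × ℤ) : ‖ps L p‖ ^ 2 = (Q L p : ℝ) := by
  have h3 : √3 * √3 = (3 : ℝ) := Real.mul_self_sqrt (by norm_num)
  rw [Complex.sq_norm, Complex.normSq_apply]
  unfold ps
  cases L
  · simp only [basis, Q, Qs]
    simp
    ring
  · simp only [basis, Q, Qt]
    simp
    nlinarith
  · simp only [basis, Q, Qt]
    simp
    nlinarith

lemma Q_pos (L : Lattice) {p : ℤ × ℤ} (h : Q L p ≤ 0) : p = 0 := by
  obtain ⟨a, b⟩ := p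
  have key : a ^ 2 ≤ 0 ∧ b ^ 2 ≤ 0 := by
    cases L
    · simp only [Q, Qs] at h
      constructor <;> nlinarith [sq_nonneg a, sq_nonneg b]
    · simp only [Q, Qt] at h
      constructor <;> nlinarith [sq_nonneg (a + 2 * b), sq_nonneg (2 * a + b)]
    · simp only [Q, Qt] at h
      constructor <;> nlinarith [sq_nonneg (a + 2 * b), sq_nonneg (2 * a + b)]
  have h1 : a = 0 := by
    have := sq_nonneg a
    exact pow_eq_zero_iff (n := 2) (by norm_num) |>.mp (by omega)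
  have h2 : b = 0 := by
    have := sq_nonneg b
    exact pow_eq_zero_iff (n := 2) (by norm_num) |>.mp (by omega)
  rw [h1, h2]; rfl

lemma ps_inj (L : Lattice) : Function.Injective (ps L) := by
  intro p q h
  have h1 : ‖ps L (p - q)‖ ^ 2 = 0 := by rw [← ps_sub, h]; simp
  rw [norm_ps] at h1
  have h2 : Q L (p - q) = 0 := by exact_mod_cast h1
  have h3 := Q_pos L h2.le
  exact sub_eq_zero.mp h3

lemma ps_zero (L : Lattice) : ps L 0 = 0 := by simp [ps]

lemma norm_one_iff (L : Lattice) (p : ℤ × ℤ) : ‖ps L p‖ = 1 ↔ Q L p = 1 := by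
  rw [← Int.cast_inj (α := ℝ), ← norm_ps, Int.cast_one]
  constructor
  · intro h; rw [h]; norm_num
  · intro h
    have := norm_nonneg (ps L p)
    nlinarith

/-- the site condition -/
def Ok2 (L : Lattice) (p : ℤ × ℤ) : Prop := L = .hexagonal → (p.1 - p.2) % 3 ≠ 2

lemma ad_iff (L : Lattice) (p q : ℤ × ℤ) :
    Ok2 L p → Ok2 L q → (Ad L p q ↔ Q L (q - p) = 1) := by
  intro h1 h2
  cases L
  · rfl
  · rfl
  · have := h1 rfl
    have := h2 rfl
    simp only [Ad, Ah, Q]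
    tauto

lemma ok_of_ad {L : Lattice} {p q : ℤ × ℤ} (h : Ad L p q) : Ok2 L p ∧ Ok2 L q := by
  cases L
  · exact ⟨fun h => (nomatch h), fun h => (nomatch h)⟩
  · exact ⟨fun h => (nomatch h), fun h => (nomatch h)⟩
  · exact ⟨fun _ => h.2.1, fun _ => h.2.2⟩

/-- the coordinate walks -/
theorem image_walks (L : Lattice) (n : ℕ) :
    {ω | IsSAW L n ω} = (fun (f : Fin (n + 1) → ℤ × ℤ) i => ps L (f i)) '' walks (Ad L) n := by
  ext ω
  constructor
  · rintro ⟨h0, h1, h2, h3⟩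
    choose a b hab hc using h1
    have hω : ∀ i, ω i = ps L (a i, b i) := fun i => hab i
    refine ⟨fun i => (a i, b i), ⟨?_, ?_, ?_⟩, funext fun i => (hω i).symm⟩
    · apply ps_inj L
      rw [← hω, h0, ps_zero]
    · intro i j hij
      apply h3
      rw [hω, hω]
      exact congrArg _ hij
    · intro i
      have c1 : Ok2 L (a i.castSucc, b i.castSucc) := hc i.castSucc
      have c2 : Ok2 L (a i.succ, b i.succ) := hc i.succ
      rw [ad_iff L _ _ c1 c2, ← norm_one_iff, ← ps_sub, ← hω, ← hω]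
      exact h2 i
  · rintro ⟨f, ⟨h0, h1, h2⟩, rfl⟩
    have hok : ∀ i, Ok2 L (f i) := by
      intro i
      induction i using Fin.induction with
      | zero => rw [h0]; intro _; decide
      | succ i _ => exact (ok_of_ad (h2 i)).2
    refine ⟨?_, ?_, ?_, ?_⟩
    · simp only
      rw [h0, ps_zero]
    · intro i
      exact ⟨(f i).1, (f i).2, rfl, hok i⟩
    · intro i
      simp only
      rw [ps_sub, norm_one_iff, ← ad_iff L _ _ (hok _) (hok _)]
      exact h2 i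
    · intro i j hij
      exact h1 (ps_inj L hij)

/-- the bound in coordinates -/
theorem tail (L : Lattice) (n : ℕ) (s : ℤ) :
    ({f | f ∈ walks (Ad L) n ∧ ∃ i, s ≤ Q L (f i)}.ncard : ℝ) ≤
      6 * H500S.TT2 n * {f | f ∈ walks (Ad L) n ∧ s ≤ 8 * Q L (f (Fin.last n))}.ncard := by
  cases L
  · exact @H500S.tail_le2 sqL _ _ _ _ _ _ coord2_sq geo_sq n s
  · exact @H500S.tail_le2 triL _ _ _ _ _ _ coord2_tri geo_tri n s
  · exact @H500S.tail_le2 hexL _ _ _ _ _ _ coord2_hex geo_hex n s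

theorem fin_walks (L : Lattice) (n : ℕ) : (walks (Ad L) n).Finite := by
  cases L
  · exact @walks_finite sqL _ _ _ coord2_sq n
  · exact @walks_finite triL _ _ _ coord2_tri n
  · exact @walks_finite hexL _ _ _ coord2_hex n

theorem ps_injOn (L : Lattice) (n : ℕ) (S : Set (Fin (n + 1) → ℤ × ℤ)) :
    Set.InjOn (fun (f : Fin (n + 1) → ℤ × ℤ) i => ps L (f i)) S := by
  intro f _ g _ h
  funext i
  exact ps_inj L (congrFun h i)

theorem ncard_saw (L : Lattice) (n : ℕ) : {ω | IsSAW L n ω}.ncard = (walks (Ad L) n).ncard := by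
  rw [image_walks, Set.ncard_image_of_injOn (ps_injOn L n _)]

theorem ncard_saw' (L : Lattice) (n : ℕ) (A : (Fin (n + 1) → ℂ) → Prop) :
    {ω | IsSAW L n ω ∧ A ω}.ncard =
      {f | f ∈ walks (Ad L) n ∧ A (fun i => ps L (f i))}.ncard := by
  have h : {ω | IsSAW L n ω ∧ A ω} = (fun (f : Fin (n + 1) → ℤ × ℤ) i => ps L (f i)) ''
      {f | f ∈ walks (Ad L) n ∧ A (fun i => ps L (f i))} := by
    have h1 := image_walks L n
    ext ω
    constructor
    · rintro ⟨h2, h3⟩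
      have h4 : ω ∈ {ω | IsSAW L n ω} := h2
      rw [h1] at h4
      obtain ⟨f, hf, rfl⟩ := h4
      exact ⟨f, ⟨hf, h3⟩, rfl⟩
    · rintro ⟨f, ⟨hf, h3⟩, rfl⟩
      refine ⟨?_, h3⟩
      have : (fun i => ps L (f i)) ∈ {ω | IsSAW L n ω} := by
        rw [h1]; exact ⟨f, hf, rfl⟩
      exact this
  rw [h, Set.ncard_image_of_injOn (ps_injOn L n _)]

lemma nonempty_aux [La : H982.Lat] {Adj : ℤ × ℤ → ℤ × ℤ → Prop} {φ : ℤ × ℤ → ℤ × ℤ}
    {R : ℕ → ℤ × ℤ → Prop} (H : Coord2 Adj φ R) (n : ℕ) : (walks Adj n).Nonempty := by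
  have h1 : 0 < H982.mu ^ n := pow_pos H982.mu_pos n
  have h2 := H982.mu_pow_le n
  rw [H982.cr'_card] at h2
  have h3 : 0 < Nat.card {w : List St // Saw w ∧ w.length = n} := by
    have : (0 : ℝ) < Nat.card {w : List St // Saw w ∧ w.length = n} := lt_of_lt_of_le h1 h2
    exact_mod_cast this
  obtain ⟨⟨w, hw⟩⟩ := (Nat.card_pos_iff.mp h3).1
  exact ⟨_, (bijOn_hw H n).mapsTo hw⟩

/-- There is a walk. -/
theorem walks_nonempty (L : Lattice) (n : ℕ) : (walks (Ad L) n).Nonempty := by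
  cases L
  · exact @nonempty_aux sqL _ _ _ coord2_sq n
  · exact @nonempty_aux triL _ _ _ coord2_tri n
  · exact @nonempty_aux hexL _ _ _ coord2_hex n

/-! ### sums -/

/-- the finite set of walks -/
noncomputable def WS (L : Lattice) (n : ℕ) : Finset (Fin (n + 1) → ℤ × ℤ) :=
  (fin_walks L n).toFinset

lemma mem_WS {L : Lattice} {n : ℕ} {f : Fin (n + 1) → ℤ × ℤ} :
    f ∈ WS L n ↔ f ∈ walks (Ad L) n := by
  unfold WS; simp

lemma WS_card (L : Lattice) (n : ℕ) : (walks (Ad L) n).ncard = (WS L n).card := by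
  unfold WS
  exact Set.ncard_eq_toFinset_card _ _

lemma WS_pos (L : Lattice) (n : ℕ) : (0 : ℝ) < (WS L n).card := by
  have : 0 < (WS L n).card := by
    obtain ⟨f, hf⟩ := walks_nonempty L n
    exact Finset.card_pos.mpr ⟨f, mem_WS.mpr hf⟩
  exact_mod_cast this

lemma mean_eq (L : Lattice) (n : ℕ) (F : (Fin (n + 1) → ℂ) → ℝ) :
    mean L n F = (∑ f ∈ WS L n, F (fun i => ps L (f i))) / (WS L n).card := by
  unfold mean
  rw [ncard_saw, WS_card]
  congr 1
  rw [image_walks, finsum_mem_image (ps_injOn L n _)]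
  have : walks (Ad L) n = ((WS L n : Finset _) : Set (Fin (n + 1) → ℤ × ℤ)) := by
    unfold WS; simp
  rw [this, finsum_mem_coe_finset]

lemma filt_card (L : Lattice) (n : ℕ) (A : (Fin (n + 1) → ℤ × ℤ) → Prop) [DecidablePred A] :
    {f | f ∈ walks (Ad L) n ∧ A f}.ncard = ((WS L n).filter A).card := by
  rw [← Set.ncard_coe_finset]
  congr 1
  ext f
  simp [mem_WS]

lemma mean_mono {L : Lattice} {n : ℕ} {F G : (Fin (n + 1) → ℂ) → ℝ} {c : ℝ}
    (h : ∑ f ∈ WS L n, F (fun i => ps L (f i)) ≤ c * ∑ f ∈ WS L n, G (fun i => ps L (f i))) :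
    mean L n F ≤ c * mean L n G := by
  rw [mean_eq, mean_eq, ← mul_div_assoc]
  have := WS_pos L n
  gcongr

/-- summing the tails -/
lemma layer {α : Type*} (S : Finset α) (M E : α → ℤ) (hM : ∀ f ∈ S, 0 ≤ M f)
    (hE : ∀ f ∈ S, 0 ≤ E f) (A : ℝ) (h : ∀ s : ℤ, ((S.filter (s ≤ M ·)).card : ℝ) ≤
      A * (S.filter (s ≤ E ·)).card) :
    (∑ f ∈ S, (M f : ℝ)) ≤ A * ∑ f ∈ S, (E f : ℝ) := by
  classical
  obtain ⟨B, hB⟩ : ∃ B : ℤ, ∀ f ∈ S, M f ≤ B ∧ E f ≤ B := by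
    refine ⟨∑ f ∈ S, (M f + E f), fun f hf => ?_⟩
    have h1 : M f + E f ≤ ∑ f ∈ S, (M f + E f) :=
      Finset.single_le_sum (f := fun f => M f + E f)
        (fun g hg => add_nonneg (hM g hg) (hE g hg)) hf
    have := hM f hf
    have := hE f hf
    constructor <;> omega
  have key : ∀ x : ℤ, 0 ≤ x → x ≤ B → (x : ℝ) =
      ∑ s ∈ Finset.Icc 1 B, (if s ≤ x then (1 : ℝ) else 0) := by
    intro x h0 h1
    rw [Finset.sum_ite, Finset.sum_const_zero, add_zero, Finset.sum_const, nsmul_eq_mul, mul_one]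
    have h2 : (Finset.Icc 1 B).filter (fun s => s ≤ x) = Finset.Icc 1 x := by
      ext s
      simp only [Finset.mem_filter, Finset.mem_Icc]
      omega
    rw [h2, Int.card_Icc]
    have h3 : (((x + 1 - 1).toNat : ℤ) : ℝ) = (x : ℝ) := by
      rw [Int.toNat_of_nonneg (by omega)]
      congr 1
      ring
    rw [← h3]
    norm_cast
  have e1 : ∀ X : α → ℤ, (∀ f ∈ S, 0 ≤ X f) → (∀ f ∈ S, X f ≤ B) → ∑ f ∈ S, (X f : ℝ) =
      ∑ s ∈ Finset.Icc 1 B, ((S.filter (s ≤ X ·)).card : ℝ) := by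
    intro X h0 h1
    rw [Finset.sum_congr rfl fun f hf => key (X f) (h0 f hf) (h1 f hf), Finset.sum_comm]
    refine Finset.sum_congr rfl fun s _ => ?_
    rw [Finset.sum_ite, Finset.sum_const_zero, add_zero, Finset.sum_const, nsmul_eq_mul, mul_one]
  rw [e1 M hM fun f hf => (hB f hf).1, e1 E hE fun f hf => (hB f hf).2, Finset.mul_sum]
  exact Finset.sum_le_sum fun s _ => h s

lemma Q_nonneg (L : Lattice) (p : ℤ × ℤ) : 0 ≤ Q L p := by
  have h := norm_ps L p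
  have h1 : (0 : ℝ) ≤ Q L p := by rw [← h]; positivity
  exact_mod_cast h1

/-- maximal value of the quadratic form -/
noncomputable def MQ (L : Lattice) {n : ℕ} (f : Fin (n + 1) → ℤ × ℤ) : ℤ :=
  Finset.univ.sup' Finset.univ_nonempty fun i => Q L (f i)

lemma le_MQ (L : Lattice) {n : ℕ} (f : Fin (n + 1) → ℤ × ℤ) (s : ℤ) :
    s ≤ MQ L f ↔ ∃ i, s ≤ Q L (f i) := by
  unfold MQ
  rw [Finset.le_sup'_iff]
  simp

lemma MaxSq_eq (L : Lattice) {n : ℕ} (f : Fin (n + 1) → ℤ × ℤ) :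
    MaxSq n (fun i => ps L (f i)) = (MQ L f : ℝ) := by
  unfold MaxSq
  apply le_antisymm
  · refine ciSup_le fun i => ?_
    rw [norm_ps]
    have : Q L (f i) ≤ MQ L f := (le_MQ L f _).mpr ⟨i, le_rfl⟩
    exact_mod_cast this
  · obtain ⟨i, hi⟩ := (le_MQ L f _).mp le_rfl
    have h1 : (MQ L f : ℝ) ≤ Q L (f i) := by exact_mod_cast hi
    refine h1.trans ?_
    rw [← norm_ps]
    exact le_ciSup (f := fun i => ‖ps L (f i)‖ ^ 2) (Set.finite_range _).bddAbove i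

lemma T_nonneg (n : ℕ) : 0 ≤ H500S.TT2 n := H500S.TT2_nonneg n

lemma sum_max (L : Lattice) (n : ℕ) :
    ∑ f ∈ WS L n, (MQ L f : ℝ) ≤ 48 * H500S.TT2 n * ∑ f ∈ WS L n, (Q L (f (Fin.last n)) : ℝ) := by
  classical
  have h := layer (WS L n) (fun f => MQ L f) (fun f => 8 * Q L (f (Fin.last n)))
    (fun f _ => (Q_nonneg L (f 0)).trans ((le_MQ L f _).mpr ⟨0, le_rfl⟩))
    (fun f _ => by have := Q_nonneg L (f (Fin.last n)); positivity) (6 * H500S.TT2 n) (fun s => by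
      have h1 := tail L n s
      rw [filt_card, filt_card] at h1
      simp only [le_MQ]
      exact h1)
  refine h.trans (le_of_eq ?_)
  push_cast
  rw [← Finset.mul_sum]
  ring

/-- the deterministic lower bound -/
lemma det (L : Lattice) {n : ℕ} (hn : 1 ≤ n) {f : Fin (n + 1) → ℤ × ℤ}
    (hf : Function.Injective f) : ∃ i, (n : ℤ) + 1 ≤ 18 * Q L (f i) := by
  by_contra hcon
  push Not at hcon
  have hq : ∀ i, Q L (f i) ≤ n / 18 := by
    intro i
    have := hcon i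
    omega
  rcases Nat.eq_zero_or_pos (n / 18) with h0 | h0
  · have h1 : ∀ i, f i = 0 := by
      intro i
      apply Q_pos L
      have := hq i
      omega
    have h2 := hf ((h1 ⟨0, by omega⟩).trans (h1 ⟨1, by omega⟩).symm)
    simp at h2
  · obtain ⟨r, hr⟩ : ∃ r : ℕ, r = Nat.sqrt (2 * (n / 18)) := ⟨_, rfl⟩
    have hr1 : r * r ≤ 2 * (n / 18) := by rw [hr]; exact Nat.sqrt_le _
    have hr2 : 2 * (n / 18) < (r + 1) * (r + 1) := by rw [hr]; exact Nat.lt_succ_sqrt _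
    have hr0 : 1 ≤ r := by
      by_contra h
      have : r = 0 := by omega
      rw [this] at hr2
      omega
    have hb : ∀ p : ℤ × ℤ, Q L p ≤ n / 18 → |p.1| ≤ r ∧ |p.2| ≤ r := by
      intro p hp
      have h2 : 2 * ((n : ℤ) / 18) < (r + 1) * (r + 1) := by exact_mod_cast hr2
      have key : p.1 ^ 2 < ((r : ℤ) + 1) ^ 2 ∧ p.2 ^ 2 < ((r : ℤ) + 1) ^ 2 := by
        cases L
        · simp only [Q, Qs] at hp
          constructor <;> nlinarith [sq_nonneg p.1, sq_nonneg p.2]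
        · simp only [Q, Qt] at hp
          constructor <;> nlinarith [sq_nonneg (p.1 + 2 * p.2), sq_nonneg (2 * p.1 + p.2),
            sq_nonneg p.1, sq_nonneg p.2]
        · simp only [Q, Qt] at hp
          constructor <;> nlinarith [sq_nonneg (p.1 + 2 * p.2), sq_nonneg (2 * p.1 + p.2),
            sq_nonneg p.1, sq_nonneg p.2]
      have a1 := abs_lt_of_sq_lt_sq key.1 (by positivity)
      have a2 := abs_lt_of_sq_lt_sq key.2 (by positivity)
      constructor <;> omega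
    have hcard : (Finset.univ : Finset (Fin (n + 1))).card ≤
        (Finset.Icc (-(r : ℤ)) r ×ˢ Finset.Icc (-(r : ℤ)) r).card := by
      refine Finset.card_le_card_of_injOn f ?_ hf.injOn
      intro i _
      obtain ⟨h1, h2⟩ := hb (f i) (hq i)
      rw [abs_le] at h1 h2
      simp only [Finset.coe_product, Finset.coe_Icc, Set.mem_prod, Set.mem_Icc]
      exact ⟨h1, h2⟩
    rw [Finset.card_univ, Fintype.card_fin, Finset.card_product, Int.card_Icc] at hcard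
    have h5 : ((r : ℤ) + 1 - -(r : ℤ)).toNat = 2 * r + 1 := by omega
    rw [h5] at hcard
    have h6 : 18 * (n / 18) ≤ n := Nat.mul_div_le n 18
    nlinarith

/-- `|ω_n|² ≥ n / 144` with probability at least `1 / (C (log n)^2)` -/
lemma end_prob (L : Lattice) {n : ℕ} (hn : 1 ≤ n) : ((WS L n).card : ℝ) ≤
    6 * H500S.TT2 n * {ω | IsSAW L n ω ∧ (n : ℝ) / 144 ≤ ‖ω (Fin.last n)‖ ^ 2}.ncard := by
  classical
  obtain ⟨s, hs⟩ : ∃ s : ℤ, s = (n + 18) / 18 := ⟨_, rfl⟩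
  have h1 := tail L n s
  have h2 : {f | f ∈ walks (Ad L) n ∧ ∃ i, s ≤ Q L (f i)} = walks (Ad L) n := by
    ext f
    refine ⟨fun h => h.1, fun h => ⟨h, ?_⟩⟩
    obtain ⟨i, hi⟩ := det L hn h.2.1
    exact ⟨i, by omega⟩
  rw [h2, WS_card] at h1
  refine h1.trans ?_
  have hT := T_nonneg n
  rw [ncard_saw' L n (fun ω => (n : ℝ) / 144 ≤ ‖ω (Fin.last n)‖ ^ 2)]
  have h3 : {f | f ∈ walks (Ad L) n ∧ s ≤ 8 * Q L (f (Fin.last n))}.ncard ≤
      {f | f ∈ walks (Ad L) n ∧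
        (n : ℝ) / 144 ≤ ‖(fun i => ps L (f i)) (Fin.last n)‖ ^ 2}.ncard := by
    refine Set.ncard_le_ncard ?_ ((fin_walks L n).subset fun f hf => hf.1)
    rintro f ⟨hf, h⟩
    refine ⟨hf, ?_⟩
    simp only
    rw [norm_ps]
    have h4 : (n : ℤ) ≤ 144 * Q L (f (Fin.last n)) := by omega
    have h5 : (n : ℝ) ≤ 144 * Q L (f (Fin.last n)) := by exact_mod_cast h4
    linarith
  gcongr

/-- the pointwise inequalities -/
lemma dist_le (z w : ℂ) : ‖z - w‖ ^ 2 ≤ 2 * ‖z‖ ^ 2 + 2 * ‖w‖ ^ 2 := by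
  have h1 := norm_sub_le z w
  have h2 := norm_nonneg z
  have h3 := norm_nonneg w
  have h4 := norm_nonneg (z - w)
  nlinarith [sq_nonneg (‖z‖ - ‖w‖)]

lemma le_Max {n : ℕ} (ω : Fin (n + 1) → ℂ) (i : Fin (n + 1)) : ‖ω i‖ ^ 2 ≤ MaxSq n ω :=
  le_ciSup (f := fun i => ‖ω i‖ ^ 2) (Set.finite_range _).bddAbove i

lemma Rm_le {n : ℕ} (ω : Fin (n + 1) → ℂ) : RmSq n ω ≤ 5 / 2 * MaxSq n ω := by
  have hn : (0 : ℝ) < (n : ℝ) + 1 := by positivity
  have h : ∑ i, (‖ω i‖ ^ 2 + ‖ω i - ω (Fin.last n)‖ ^ 2) ≤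
      ∑ _i : Fin (n + 1), (5 * MaxSq n ω) := by
    refine Finset.sum_le_sum fun i _ => ?_
    have h1 := le_Max ω i
    have h2 := le_Max ω (Fin.last n)
    have h3 := dist_le (ω i) (ω (Fin.last n))
    linarith
  rw [Finset.sum_const, Finset.card_univ, Fintype.card_fin, nsmul_eq_mul] at h
  unfold RmSq
  calc 1 / (2 * ((n : ℝ) + 1)) * ∑ i, (‖ω i‖ ^ 2 + ‖ω i - ω (Fin.last n)‖ ^ 2)
      ≤ 1 / (2 * ((n : ℝ) + 1)) * (((n + 1 : ℕ) : ℝ) * (5 * MaxSq n ω)) := by gcongr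
    _ = _ := by
        push_cast
        field_simp

lemma Rg_le {n : ℕ} (ω : Fin (n + 1) → ℂ) : RgSq n ω ≤ 2 * MaxSq n ω := by
  have hn : (0 : ℝ) < (n : ℝ) + 1 := by positivity
  have h : ∑ i, ∑ j, ‖ω i - ω j‖ ^ 2 ≤
      ∑ _i : Fin (n + 1), ∑ _j : Fin (n + 1), (4 * MaxSq n ω) := by
    refine Finset.sum_le_sum fun i _ => Finset.sum_le_sum fun j _ => ?_
    have h1 := le_Max ω i
    have h2 := le_Max ω j
    have h3 := dist_le (ω i) (ω j)
    linarith
  rw [Finset.sum_const, Finset.sum_const, Finset.card_univ, Fintype.card_fin, nsmul_eq_mul,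
    nsmul_eq_mul] at h
  unfold RgSq
  calc 1 / (2 * ((n : ℝ) + 1) ^ 2) * ∑ i, ∑ j, ‖ω i - ω j‖ ^ 2
      ≤ 1 / (2 * ((n : ℝ) + 1) ^ 2) *
        (((n + 1 : ℕ) : ℝ) * (((n + 1 : ℕ) : ℝ) * (4 * MaxSq n ω))) := by gcongr
    _ = _ := by
        push_cast
        field_simp
        ring

lemma Re_le {n : ℕ} (ω : Fin (n + 1) → ℂ) : ReSq n ω ≤ 4 * RmSq n ω := by
  have hn : (0 : ℝ) < (n : ℝ) + 1 := by positivity
  have h : ∑ _i : Fin (n + 1), ‖ω (Fin.last n)‖ ^ 2 ≤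
      ∑ i, 2 * (‖ω i‖ ^ 2 + ‖ω i - ω (Fin.last n)‖ ^ 2) := by
    refine Finset.sum_le_sum fun i _ => ?_
    have h3 := dist_le (ω i) (ω i - ω (Fin.last n))
    rw [sub_sub_cancel] at h3
    linarith
  rw [Finset.sum_const, Finset.card_univ, Fintype.card_fin, nsmul_eq_mul, ← Finset.mul_sum] at h
  unfold ReSq RmSq
  push_cast at h
  have h2 : ‖ω (Fin.last n)‖ ^ 2 ≤
      (2 * ∑ i, (‖ω i‖ ^ 2 + ‖ω i - ω (Fin.last n)‖ ^ 2)) / ((n : ℝ) + 1) := by
    rw [le_div_iff₀ hn, mul_comm]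
    exact h
  refine h2.trans (le_of_eq ?_)
  field_simp
  ring

lemma Max_nonneg {n : ℕ} (ω : Fin (n + 1) → ℂ) : 0 ≤ MaxSq n ω :=
  le_trans (by positivity) (le_Max ω 0)

lemma mean_le {L : Lattice} {n : ℕ} {F G : (Fin (n + 1) → ℂ) → ℝ} (c : ℝ)
    (h : ∀ ω, F ω ≤ c * G ω) : mean L n F ≤ c * mean L n G := by
  refine mean_mono ?_
  rw [Finset.mul_sum]
  exact Finset.sum_le_sum fun f _ => h _

lemma mean_nonneg {L : Lattice} {n : ℕ} {F : (Fin (n + 1) → ℂ) → ℝ}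
    (h : ∀ ω, 0 ≤ F ω) : 0 ≤ mean L n F := by
  rw [mean_eq]
  exact div_nonneg (Finset.sum_nonneg fun f _ => h _) (Nat.cast_nonneg _)

lemma mean_max (L : Lattice) (n : ℕ) : mean L n (MaxSq n) ≤ 48 * H500S.TT2 n * mean L n (ReSq n) := by
  refine mean_mono ?_
  have h := sum_max L n
  calc ∑ f ∈ WS L n, MaxSq n (fun i => ps L (f i)) = ∑ f ∈ WS L n, (MQ L f : ℝ) :=
        Finset.sum_congr rfl fun f _ => MaxSq_eq L f
    _ ≤ _ := h
    _ = _ := by
        congr 1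
        refine Finset.sum_congr rfl fun f _ => ?_
        unfold ReSq
        rw [norm_ps]

lemma n_le_max (L : Lattice) {n : ℕ} (hn : 1 ≤ n) : (n : ℝ) ≤ 18 * mean L n (MaxSq n) := by
  have h : ∑ _f ∈ WS L n, (n : ℝ) ≤ ∑ f ∈ WS L n, 18 * MaxSq n (fun i => ps L (f i)) := by
    refine Finset.sum_le_sum fun f hf => ?_
    obtain ⟨i, hi⟩ := det L hn (mem_WS.mp hf).2.1
    have h1 := le_Max (fun i => ps L (f i)) i
    simp only [norm_ps] at h1
    have h2 : (n : ℝ) + 1 ≤ 18 * Q L (f i) := by exact_mod_cast hi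
    linarith
  rw [Finset.sum_const, nsmul_eq_mul, ← Finset.mul_sum] at h
  rw [mean_eq, ← mul_div_assoc, le_div_iff₀ (WS_pos L n), mul_comm]
  exact h

/-- the tail bound, real thresholds -/
lemma prob_tail (L : Lattice) (n : ℕ) (s : ℝ) :
    prob L n (fun ω => ∃ i, s ≤ ‖ω i‖ ^ 2) ≤
      6 * H500S.TT2 n * prob L n (fun ω => s ≤ 8 * ‖ω (Fin.last n)‖ ^ 2) := by
  unfold prob
  rw [← mul_div_assoc]
  have h0 : (0 : ℝ) ≤ ({ω | IsSAW L n ω}.ncard : ℝ) := Nat.cast_nonneg _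
  refine div_le_div_of_nonneg_right ?_ h0
  rw [ncard_saw' L n (fun ω => ∃ i, s ≤ ‖ω i‖ ^ 2),
    ncard_saw' L n (fun ω => s ≤ 8 * ‖ω (Fin.last n)‖ ^ 2)]
  have h := tail L n ⌈s⌉
  have e1 : {f | f ∈ walks (Ad L) n ∧ ∃ i, s ≤ ‖ps L (f i)‖ ^ 2} =
      {f | f ∈ walks (Ad L) n ∧ ∃ i, ⌈s⌉ ≤ Q L (f i)} := by
    ext f
    simp only [Set.mem_setOf_eq, norm_ps, Int.ceil_le]
  have e2 : {f | f ∈ walks (Ad L) n ∧ s ≤ 8 * ‖ps L (f (Fin.last n))‖ ^ 2} =
      {f | f ∈ walks (Ad L) n ∧ ⌈s⌉ ≤ 8 * Q L (f (Fin.last n))} := by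
    ext f
    simp only [Set.mem_setOf_eq, norm_ps, Int.ceil_le]
    push_cast
    rfl
  rw [e1, e2]
  exact h

theorem bounds : ∃ C : ℝ, 0 < C ∧ ∀ (L : Lattice) (n : ℕ), 2 ≤ n →
    (∀ s : ℝ, prob L n (fun ω => ∃ i, s ≤ ‖ω i‖ ^ 2) ≤
      C * Real.log n ^ 2 * prob L n (fun ω => s ≤ 8 * ‖ω (Fin.last n)‖ ^ 2)) ∧
    1 ≤ C * Real.log n ^ 2 * prob L n (fun ω => (n : ℝ) / 144 ≤ ‖ω (Fin.last n)‖ ^ 2) ∧
    mean L n (MaxSq n) ≤ C * Real.log n ^ 2 * mean L n (ReSq n) ∧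
    mean L n (RmSq n) ≤ C * Real.log n ^ 2 * mean L n (ReSq n) ∧
    mean L n (RgSq n) ≤ C * Real.log n ^ 2 * mean L n (ReSq n) ∧
    mean L n (ReSq n) ≤ 4 * mean L n (RmSq n) ∧
    (n : ℝ) ≤ C * Real.log n ^ 2 * mean L n (ReSq n) := by
  refine ⟨900 * 1500, by norm_num, fun L n hn => ?_⟩
  have hT := H500S.TT2_le hn
  have hT0 := T_nonneg n
  have hl : 0 ≤ Real.log n := Real.log_natCast_nonneg n
  have hl2 : 0 ≤ Real.log n ^ 2 := by positivity
  have hprob : ∀ A, 0 ≤ prob L n A := fun A => by unfold prob; positivity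
  have hRe : 0 ≤ mean L n (ReSq n) := mean_nonneg fun ω => by unfold ReSq; positivity
  have key : ∀ (c x : ℝ), 0 ≤ c → c ≤ 900 → 0 ≤ x →
      c * H500S.TT2 n * x ≤ 900 * 1500 * Real.log n ^ 2 * x := by
    intro c x hc hc2 hx
    have h1 : c * H500S.TT2 n ≤ 900 * (1500 * Real.log n ^ 2) :=
      mul_le_mul hc2 hT hT0 (by norm_num)
    calc c * H500S.TT2 n * x ≤ 900 * (1500 * Real.log n ^ 2) * x := by gcongr
      _ = _ := by ring
  have hmax := mean_max L n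
  refine ⟨fun s => ?_, ?_, ?_, ?_, ?_, mean_le 4 Re_le, ?_⟩
  · exact (prob_tail L n s).trans (key 6 _ (by norm_num) (by norm_num) (hprob _))
  · have h1 := end_prob L (n := n) (by omega)
    have h2 := WS_pos L n
    have h3 : 1 ≤ 6 * H500S.TT2 n * prob L n (fun ω => (n : ℝ) / 144 ≤ ‖ω (Fin.last n)‖ ^ 2) := by
      unfold prob
      rw [ncard_saw, WS_card, ← mul_div_assoc, le_div_iff₀ h2, one_mul]
      exact h1
    exact h3.trans (key 6 _ (by norm_num) (by norm_num) (hprob _))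
  · exact hmax.trans (key 48 _ (by norm_num) (by norm_num) hRe)
  · have h1 : mean L n (RmSq n) ≤ 5 / 2 * mean L n (MaxSq n) := mean_le _ Rm_le
    have h2 : mean L n (RmSq n) ≤ 120 * H500S.TT2 n * mean L n (ReSq n) := by linarith
    exact h2.trans (key 120 _ (by norm_num) (by norm_num) hRe)
  · have h1 : mean L n (RgSq n) ≤ 2 * mean L n (MaxSq n) := mean_le _ Rg_le
    have h2 : mean L n (RgSq n) ≤ 96 * H500S.TT2 n * mean L n (ReSq n) := by linarith
    exact h2.trans (key 96 _ (by norm_num) (by norm_num) hRe)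
  · have h1 := n_le_max L (n := n) (by omega)
    have h2 : (n : ℝ) ≤ 864 * H500S.TT2 n * mean L n (ReSq n) := by linarith
    exact h2.trans (key 864 _ (by norm_num) (by norm_num) hRe)

/-- Main result: the displacement of the self-avoiding walk on the honeycomb lattice. -/
theorem result : ∃ C : ℝ, 0 < C ∧ ∀ n : ℕ, 2 ≤ n →
    (n : ℝ) ≤ C * Real.log n ^ 2 * mean .hexagonal n (ReSq n) ∧
    mean .hexagonal n (MaxSq n) ≤ C * Real.log n ^ 2 * mean .hexagonal n (ReSq n) ∧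
    1 ≤ C * Real.log n ^ 2 *
      prob .hexagonal n (fun ω => (n : ℝ) / 144 ≤ ‖ω (Fin.last n)‖ ^ 2) ∧
    ∀ s : ℝ, prob .hexagonal n (fun ω => ∃ i, s ≤ ‖ω i‖ ^ 2) ≤
      C * Real.log n ^ 2 * prob .hexagonal n (fun ω => s ≤ 8 * ‖ω (Fin.last n)‖ ^ 2) := by
  obtain ⟨C, hC, h⟩ := bounds
  refine ⟨C, hC, fun n hn => ?_⟩
  obtain ⟨h1, h2, h3, -, -, -, h7⟩ := h .hexagonal n hn
  exact ⟨h7, h3, h2, h1⟩

end Pool.Agent.Results.MP_b440f6_pr.DisplacementLower
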